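import Mathlib

/-!
MP_ce5406_an, block T4 (`slow_avg`): averages of `g (σ n) ⌊κ n ^ γ⌋` where `σ n` is a vector of
integer parts of slower powers.
-/

open Filter Topology Finset
open scoped BigOperators

namespace Pool.Agent.JE

namespace SlowAvg

/-- Bernoulli-type inequality. -/
theorem rpow_sub_le {p x y : ℝ} (hp : 1 ≤ p) (hx : 0 ≤ x) (hy : 0 < y) :
    y ^ p - x ^ p ≤ p * (y - x) * y ^ (p - 1) := by
  have h1 : (-1 : ℝ) ≤ x / y - 1 := by
    have : 0 ≤ x / y := by positivity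
    linarith
  have h2 := one_add_mul_self_le_rpow_one_add h1 hp
  have h3 : (1 + (x / y - 1)) ^ p = x ^ p / y ^ p := by
    rw [← Real.div_rpow hx hy.le]
    congr 1
    ring
  rw [h3, le_div_iff₀ (Real.rpow_pos_of_pos hy p)] at h2
  have h4 : y ^ p = y ^ (p - 1) * y := by
    rw [← Real.rpow_add_one hy.ne']
    congr 1
    ring
  have h5 : (1 + p * (x / y - 1)) * y ^ p = y ^ p - p * (y - x) * y ^ (p - 1) := by
    rw [h4]
    field_simp
    ring
  rw [h5] at h2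
  linarith

section block

variable {E : Type*} [NormedAddCommGroup E] [NormedSpace ℝ E]

omit [NormedSpace ℝ E] in
/-- Consecutive blocks. -/
theorem sum_blocks (a : ℕ → ℕ) (ha : Monotone a) (f : ℕ → E) (k0 : ℕ) (L : ℕ) :
    ∑ n ∈ Ico (a k0) (a (k0 + L)), f n =
      ∑ i ∈ range L, ∑ n ∈ Ico (a (k0 + i)) (a (k0 + i + 1)), f n := by
  induction L with
  | zero => simp
  | succ L ih =>
    rw [Finset.sum_range_succ, ← ih,
      Finset.sum_Ico_consecutive _ (ha (by omega)) (ha (by omega))]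
    rfl

/-- The estimate on a block where the slow variables are constant. -/
theorem block_const (a : ℕ → ℕ) (F : ℕ → ℝ) (haF : ∀ k, F k ≤ a k)
    (haF' : ∀ k, (a k : ℝ) ≤ F k + 1) (ha : Monotone a)
    (hconv : Monotone (fun k => F (k + 1) - F k)) (b : ℕ → ℕ)
    (hb : ∀ k n, a k ≤ n → n < a (k + 1) → b n = k)
    (h : ℕ → E) (hh : ∀ k, ‖h k‖ ≤ 1) (L : ℕ) (hL : 1 ≤ L) (ε : ℝ) (hε : 0 ≤ ε) (k0 : ℕ)
    (hav : ‖(L : ℝ)⁻¹ • ∑ i ∈ range L, h (k0 + i)‖ ≤ ε) :
    ‖∑ n ∈ Ico (a k0) (a (k0 + L)), h (b n)‖ ≤ ε * (a (k0 + L) - a k0) +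
      (1 + ε) * (L * ((F (k0 + L + 1) - F (k0 + L)) - (F (k0 + 1) - F k0)) + 2 * L) := by
  set lam : ℕ → ℝ := fun i => (a (k0 + i + 1) : ℝ) - a (k0 + i) with hlam
  have h1 : ∑ n ∈ Ico (a k0) (a (k0 + L)), h (b n) = ∑ i ∈ range L, lam i • h (k0 + i) := by
    rw [sum_blocks a ha]
    refine Finset.sum_congr rfl fun i _ => ?_
    have : ∑ n ∈ Ico (a (k0 + i)) (a (k0 + i + 1)), h (b n) =
        ∑ n ∈ Ico (a (k0 + i)) (a (k0 + i + 1)), h (k0 + i) := by
      refine Finset.sum_congr rfl fun n hn => ?_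
      rw [Finset.mem_Ico] at hn
      rw [hb _ _ hn.1 hn.2]
    rw [this, Finset.sum_const, Nat.card_Ico, ← Nat.cast_smul_eq_nsmul ℝ,
      Nat.cast_sub (ha (by omega))]
  set R : ℝ := ∑ i ∈ range L, |lam i - lam 0| with hR
  have hR0 : 0 ≤ R := Finset.sum_nonneg fun i _ => abs_nonneg _
  have hLpos : (0 : ℝ) < L := by exact_mod_cast hL
  have h2 : ‖∑ i ∈ range L, lam i • h (k0 + i)‖ ≤ lam 0 * (L * ε) + R := by
    have h3 : ∑ i ∈ range L, lam i • h (k0 + i) =
        lam 0 • ∑ i ∈ range L, h (k0 + i) + ∑ i ∈ range L, (lam i - lam 0) • h (k0 + i) := by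
      rw [Finset.smul_sum, ← Finset.sum_add_distrib]
      refine Finset.sum_congr rfl fun i _ => ?_
      rw [← add_smul]
      congr 1
      ring
    have hl0 : 0 ≤ lam 0 := by
      simp only [hlam]
      have : (a (k0 + 0) : ℝ) ≤ a (k0 + 0 + 1) := by exact_mod_cast ha (by omega)
      linarith
    have h4 : ‖∑ i ∈ range L, h (k0 + i)‖ ≤ L * ε := by
      rw [norm_smul, norm_inv, Real.norm_of_nonneg hLpos.le, inv_mul_le_iff₀ hLpos] at hav
      exact hav
    calc ‖∑ i ∈ range L, lam i • h (k0 + i)‖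
        ≤ ‖lam 0 • ∑ i ∈ range L, h (k0 + i)‖ + ‖∑ i ∈ range L, (lam i - lam 0) • h (k0 + i)‖ := by
          rw [h3]; exact norm_add_le _ _
      _ ≤ lam 0 * (L * ε) + R := by
          refine add_le_add ?_ ?_
          · rw [norm_smul, Real.norm_of_nonneg hl0]
            exact mul_le_mul_of_nonneg_left h4 hl0
          · refine (norm_sum_le _ _).trans (Finset.sum_le_sum fun i _ => ?_)
            rw [norm_smul, Real.norm_eq_abs]
            calc |lam i - lam 0| * ‖h (k0 + i)‖ ≤ |lam i - lam 0| * 1 :=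
                  mul_le_mul_of_nonneg_left (hh _) (abs_nonneg _)
              _ = |lam i - lam 0| := mul_one _
  have h5 : lam 0 * L ≤ ((a (k0 + L) : ℝ) - a k0) + R := by
    have h6 : ∑ i ∈ range L, lam i = (a (k0 + L) : ℝ) - a k0 := by
      have := Finset.sum_range_sub (fun i => (a (k0 + i) : ℝ)) L
      simpa [hlam, add_assoc] using this
    have h7 : lam 0 * L = ∑ i ∈ range L, lam 0 := by
      rw [Finset.sum_const, Finset.card_range, nsmul_eq_mul, mul_comm]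
    rw [h7, ← h6, hR, ← Finset.sum_add_distrib]
    refine Finset.sum_le_sum fun i _ => ?_
    have := neg_abs_le (lam i - lam 0)
    linarith
  have h8 : R ≤ L * ((F (k0 + L + 1) - F (k0 + L)) - (F (k0 + 1) - F k0)) + 2 * L := by
    have : R ≤ ∑ i ∈ range L,
        (((F (k0 + L + 1) - F (k0 + L)) - (F (k0 + 1) - F k0)) + 2) := by
      refine Finset.sum_le_sum fun i hi => ?_
      rw [Finset.mem_range] at hi
      have m1 : F (k0 + i + 1) - F (k0 + i) ≤ F (k0 + L + 1) - F (k0 + L) :=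
        hconv (show k0 + i ≤ k0 + L by omega)
      have m2 : F (k0 + 1) - F k0 ≤ F (k0 + i + 1) - F (k0 + i) :=
        hconv (show k0 ≤ k0 + i by omega)
      have e1 := haF (k0 + i + 1)
      have e2 := haF' (k0 + i + 1)
      have e3 := haF (k0 + i)
      have e4 := haF' (k0 + i)
      have e5 := haF (k0 + 1)
      have e6 := haF' (k0 + 1)
      have e7 := haF k0
      have e8 := haF' k0
      simp only [hlam, add_zero]
      rw [abs_le]
      constructor <;> linarith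
    refine this.trans (le_of_eq ?_)
    rw [Finset.sum_const, Finset.card_range, nsmul_eq_mul]
    ring
  rw [h1]
  calc ‖∑ i ∈ range L, lam i • h (k0 + i)‖ ≤ lam 0 * (L * ε) + R := h2
    _ = (lam 0 * L) * ε + R := by ring
    _ ≤ (((a (k0 + L) : ℝ) - a k0) + R) * ε + R := by
        have := mul_le_mul_of_nonneg_right h5 hε
        linarith
    _ = ε * (a (k0 + L) - a k0) + (1 + ε) * R := by ring
    _ ≤ _ := by
        have := mul_le_mul_of_nonneg_left h8 (show 0 ≤ 1 + ε by linarith)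
        linarith

/-- The estimate on an arbitrary block. -/
theorem block_any {I : Type} [Fintype I] (a : ℕ → ℕ) (F : ℕ → ℝ) (haF : ∀ k, F k ≤ a k)
    (haF' : ∀ k, (a k : ℝ) ≤ F k + 1) (ha : Monotone a)
    (hconv : Monotone (fun k => F (k + 1) - F k)) (b : ℕ → ℕ)
    (hb : ∀ k n, a k ≤ n → n < a (k + 1) → b n = k)
    (σ : I → ℕ → ℤ) (hσ : ∀ i, Monotone (σ i) ∨ Antitone (σ i))
    (g : (I → ℤ) → ℕ → E) (hg : ∀ s k, ‖g s k‖ ≤ 1) (L : ℕ) (hL : 1 ≤ L) (ε : ℝ) (hε : 0 ≤ ε)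
    (hav : ∀ s k0, ‖(L : ℝ)⁻¹ • ∑ i ∈ range L, g s (k0 + i)‖ ≤ ε) (k0 : ℕ) :
    ‖∑ n ∈ Ico (a k0) (a (k0 + L)), g (fun i => σ i n) (b n)‖ ≤
      ((a (k0 + L) : ℝ) - a k0) * (∑ i, |((σ i (a (k0 + L)) : ℝ) - σ i (a k0))|) +
      ε * (a (k0 + L) - a k0) +
      (1 + ε) * (L * ((F (k0 + L + 1) - F (k0 + L)) - (F (k0 + 1) - F k0)) + 2 * L) := by
  have hlen : (0 : ℝ) ≤ (a (k0 + L) : ℝ) - a k0 := by
    have : (a k0 : ℝ) ≤ a (k0 + L) := by exact_mod_cast ha (by omega)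
    linarith
  have hdf : 0 ≤ (F (k0 + L + 1) - F (k0 + L)) - (F (k0 + 1) - F k0) := by
    have := hconv (show k0 ≤ k0 + L by omega)
    simp only at this
    linarith
  have hLpos : (0 : ℝ) < L := by exact_mod_cast hL
  by_cases hc : ∀ i, σ i (a (k0 + L)) = σ i (a k0)
  · have key : ∀ n ∈ Ico (a k0) (a (k0 + L)), g (fun i => σ i n) (b n) =
        g (fun i => σ i (a k0)) (b n) := by
      intro n hn
      rw [Finset.mem_Ico] at hn
      congr 1
      funext i
      rcases hσ i with hm | hm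
      · have h1 := hm hn.1
        have h2 := hm hn.2.le
        have h3 := hc i
        omega
      · have h1 := hm hn.1
        have h2 := hm hn.2.le
        have h3 := hc i
        omega
    rw [Finset.sum_congr rfl key]
    have := block_const a F haF haF' ha hconv b hb (g (fun i => σ i (a k0))) (hg _) L hL ε hε k0
      (hav _ k0)
    have h0 : (0 : ℝ) ≤ ((a (k0 + L) : ℝ) - a k0) *
        (∑ i, |((σ i (a (k0 + L)) : ℝ) - σ i (a k0))|) :=
      mul_nonneg hlen (Finset.sum_nonneg fun i _ => abs_nonneg _)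
    linarith
  · push Not at hc
    obtain ⟨i, hi⟩ := hc
    have h1 : (1 : ℝ) ≤ ∑ i, |((σ i (a (k0 + L)) : ℝ) - σ i (a k0))| := by
      have h2 : (1 : ℝ) ≤ |((σ i (a (k0 + L)) : ℝ) - σ i (a k0))| := by
        have h3 : (1 : ℤ) ≤ |σ i (a (k0 + L)) - σ i (a k0)| :=
          Int.one_le_abs (sub_ne_zero.mpr hi)
        exact_mod_cast h3
      exact h2.trans (Finset.single_le_sum
        (f := fun i => |((σ i (a (k0 + L)) : ℝ) - σ i (a k0))|)
        (fun i _ => abs_nonneg _) (Finset.mem_univ i))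
    have h4 : ‖∑ n ∈ Ico (a k0) (a (k0 + L)), g (fun i => σ i n) (b n)‖ ≤
        (a (k0 + L) : ℝ) - a k0 := by
      refine (norm_sum_le _ _).trans ?_
      calc ∑ n ∈ Ico (a k0) (a (k0 + L)), ‖g (fun i => σ i n) (b n)‖
          ≤ ∑ n ∈ Ico (a k0) (a (k0 + L)), (1 : ℝ) := Finset.sum_le_sum fun n _ => hg _ _
        _ = (a (k0 + L) : ℝ) - a k0 := by
            rw [Finset.sum_const, Nat.card_Ico, nsmul_eq_mul, mul_one,
              Nat.cast_sub (ha (by omega))]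
    have h5 : (a (k0 + L) : ℝ) - a k0 ≤ ((a (k0 + L) : ℝ) - a k0) *
        (∑ i, |((σ i (a (k0 + L)) : ℝ) - σ i (a k0))|) := by
      nlinarith
    have h6 : 0 ≤ ε * ((a (k0 + L) : ℝ) - a k0) := mul_nonneg hε hlen
    have h7 : 0 ≤ (1 + ε) * (L * ((F (k0 + L + 1) - F (k0 + L)) - (F (k0 + 1) - F k0)) + 2 * L) := by
      positivity
    linarith

/-- Summation over the blocks. -/
theorem sum_all {I : Type} [Fintype I] (a : ℕ → ℕ) (ha0 : a 0 = 0) (F : ℕ → ℝ)
    (haF : ∀ k, F k ≤ a k)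
    (haF' : ∀ k, (a k : ℝ) ≤ F k + 1) (ha : Monotone a)
    (hconv : Monotone (fun k => F (k + 1) - F k)) (b : ℕ → ℕ)
    (hb : ∀ k n, a k ≤ n → n < a (k + 1) → b n = k)
    (σ : I → ℕ → ℤ) (hσ : ∀ i, Monotone (σ i) ∨ Antitone (σ i))
    (g : (I → ℤ) → ℕ → E) (hg : ∀ s k, ‖g s k‖ ≤ 1) (L : ℕ) (hL : 1 ≤ L) (ε : ℝ) (hε : 0 ≤ ε)
    (hav : ∀ s k0, ‖(L : ℝ)⁻¹ • ∑ i ∈ range L, g s (k0 + i)‖ ≤ ε) (J : ℕ) :
    ‖∑ n ∈ range (a (J * L)), g (fun i => σ i n) (b n)‖ ≤
      (F (J * L + L) - F (J * L) + 1) * (∑ i, |((σ i (a (J * L)) : ℝ) - σ i 0)|) +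
      ε * a (J * L) +
      (1 + ε) * (L * ((F (J * L + 1) - F (J * L)) - (F 1 - F 0)) + 2 * L * J) := by
  -- monotonicity of block lengths
  have hdL : ∀ k l, k ≤ l → F (k + L) - F k ≤ F (l + L) - F l := by
    intro k l hkl
    have e1 : ∀ m, F (m + L) - F m = ∑ i ∈ range L, (F (m + i + 1) - F (m + i)) := by
      intro m
      have := Finset.sum_range_sub (fun i => F (m + i)) L
      simpa [add_assoc] using this.symm
    rw [e1, e1]
    refine Finset.sum_le_sum fun i _ => ?_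
    exact hconv (show k + i ≤ l + i by omega)
  have habs : ∀ i x y z, x ≤ y → y ≤ z → |((σ i z : ℝ) - σ i x)| =
      |((σ i y : ℝ) - σ i x)| + |((σ i z : ℝ) - σ i y)| := by
    intro i x y z hxy hyz
    rcases hσ i with hm | hm
    · have h1 : (σ i x : ℝ) ≤ σ i y := by exact_mod_cast hm hxy
      have h2 : (σ i y : ℝ) ≤ σ i z := by exact_mod_cast hm hyz
      rw [abs_of_nonneg (by linarith), abs_of_nonneg (by linarith), abs_of_nonneg (by linarith)]
      ring
    · have h1 : (σ i y : ℝ) ≤ σ i x := by exact_mod_cast hm hxy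
      have h2 : (σ i z : ℝ) ≤ σ i y := by exact_mod_cast hm hyz
      rw [abs_of_nonpos (by linarith), abs_of_nonpos (by linarith), abs_of_nonpos (by linarith)]
      ring
  induction J with
  | zero => simp [ha0]
  | succ J ih =>
    have hidx : (J + 1) * L = J * L + L := by ring
    rw [hidx]
    have hsplit : ∑ n ∈ range (a (J * L + L)), g (fun i => σ i n) (b n) =
        ∑ n ∈ range (a (J * L)), g (fun i => σ i n) (b n) +
        ∑ n ∈ Ico (a (J * L)) (a (J * L + L)), g (fun i => σ i n) (b n) := by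
      rw [Finset.sum_range_add_sum_Ico _ (ha (by omega))]
    have hblk := block_any a F haF haF' ha hconv b hb σ hσ g hg L hL ε hε hav (J * L)
    rw [hsplit]
    refine (norm_add_le _ _).trans ((add_le_add ih hblk).trans ?_)
    set V := ∑ i, |((σ i (a (J * L)) : ℝ) - σ i 0)| with hV
    set W := ∑ i, |((σ i (a (J * L + L)) : ℝ) - σ i (a (J * L)))| with hW
    have hVW : ∑ i, |((σ i (a (J * L + L)) : ℝ) - σ i 0)| = V + W := by
      rw [hV, hW, ← Finset.sum_add_distrib]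
      refine Finset.sum_congr rfl fun i _ => ?_
      exact habs i _ _ _ (Nat.zero_le _) (ha (by omega))
    have hV0 : 0 ≤ V := Finset.sum_nonneg fun i _ => abs_nonneg _
    have hW0 : 0 ≤ W := Finset.sum_nonneg fun i _ => abs_nonneg _
    rw [hVW]
    set M1 := F (J * L + L) - F (J * L) + 1 with hM1
    set M2 := F (J * L + L + L) - F (J * L + L) + 1 with hM2
    have hM12 : M1 ≤ M2 := by
      have := hdL (J * L) (J * L + L) (by omega)
      linarith
    have hlen : (a (J * L + L) : ℝ) - a (J * L) ≤ M1 := by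
      have h1 := haF' (J * L + L)
      have h2 := haF (J * L)
      linarith
    have hlen2 : (a (J * L + L) : ℝ) - a (J * L) ≤ M2 := hlen.trans hM12
    have e1 : M1 * V ≤ M2 * V := mul_le_mul_of_nonneg_right hM12 hV0
    have e2 : ((a (J * L + L) : ℝ) - a (J * L)) * W ≤ M2 * W :=
      mul_le_mul_of_nonneg_right hlen2 hW0
    push_cast
    nlinarith [e1, e2]

end block

/-- The limit of the error term. -/
theorem err_tendsto {I : Type} [Fintype I] (γ : ℝ) (hγ : 0 < γ) (hγ1 : γ < 1) (κs τs : I → ℝ)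
    (hτ : ∀ i, 0 < τs i ∧ τs i < γ) (C c c' : ℝ) :
    Tendsto (fun N : ℕ => ((C * (N : ℝ) ^ (1 - γ) + 1) * ((∑ i, (|κs i| * (N : ℝ) ^ τs i + 1)) + c)
      + c' * (N : ℝ) ^ γ) / N) atTop (𝓝 0) := by
  have hN : Tendsto (fun N : ℕ => (N : ℝ)) atTop atTop := tendsto_natCast_atTop_atTop
  have hneg : ∀ s : ℝ, 0 < s → Tendsto (fun N : ℕ => (N : ℝ) ^ (-s)) atTop (𝓝 0) := fun s hs =>
    (tendsto_rpow_neg_atTop hs).comp hN
  have h1 : Tendsto (fun N : ℕ => C * (∑ i, (|κs i| * (N : ℝ) ^ (-(γ - τs i)) + (N : ℝ) ^ (-γ))) +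
      C * c * (N : ℝ) ^ (-γ) + (∑ i, (|κs i| * (N : ℝ) ^ (-(1 - τs i)) + (N : ℝ) ^ (-(1 : ℝ)))) +
      c * (N : ℝ) ^ (-(1 : ℝ)) + c' * (N : ℝ) ^ (-(1 - γ))) atTop
      (𝓝 (C * (∑ i : I, (|κs i| * 0 + 0)) + C * c * 0 + (∑ i : I, (|κs i| * 0 + 0)) +
        c * 0 + c' * 0)) := by
    refine Tendsto.add (Tendsto.add (Tendsto.add (Tendsto.add ?_ ?_) ?_) ?_) ?_
    · refine Tendsto.const_mul _ (tendsto_finsetSum _ fun i _ => ?_)
      exact ((hneg _ (by linarith [(hτ i).2])).const_mul _).add (hneg _ hγ)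
    · exact (hneg _ hγ).const_mul _
    · refine tendsto_finsetSum _ fun i _ => ?_
      exact ((hneg _ (by linarith [(hτ i).2])).const_mul _).add (hneg _ one_pos)
    · exact (hneg _ one_pos).const_mul _
    · exact (hneg _ (by linarith)).const_mul _
  have h2 : (C * (∑ i : I, (|κs i| * 0 + 0)) + C * c * 0 + (∑ i : I, (|κs i| * 0 + 0)) +
        c * 0 + c' * 0) = (0 : ℝ) := by simp
  rw [h2] at h1
  refine h1.congr' ?_
  filter_upwards [eventually_ge_atTop 1] with N hN1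
  have hNpos : (0 : ℝ) < N := by exact_mod_cast hN1
  have r1 : (N : ℝ) ^ (1 - γ) / N = (N : ℝ) ^ (-γ) := by
    rw [← Real.rpow_sub_one hNpos.ne']
    congr 1
    ring
  have r2 : ∀ s : ℝ, (N : ℝ) ^ s / N = (N : ℝ) ^ (-(1 - s)) := by
    intro s
    rw [← Real.rpow_sub_one hNpos.ne']
    congr 1
    ring
  have r3 : (1 : ℝ) / N = (N : ℝ) ^ (-(1 : ℝ)) := by
    rw [Real.rpow_neg_one, one_div]
  have r4 : ∀ s : ℝ, (N : ℝ) ^ (-γ) * (N : ℝ) ^ s = (N : ℝ) ^ (-(γ - s)) := by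
    intro s
    rw [← Real.rpow_add hNpos]
    congr 1
    ring
  have r5 : (∑ i, (|κs i| * (N : ℝ) ^ τs i + 1)) * (N : ℝ) ^ (-γ) =
      ∑ i, (|κs i| * (N : ℝ) ^ (-(γ - τs i)) + (N : ℝ) ^ (-γ)) := by
    rw [Finset.sum_mul]
    refine Finset.sum_congr rfl fun i _ => ?_
    rw [← r4]
    ring
  have r6 : (∑ i, (|κs i| * (N : ℝ) ^ τs i + 1)) / N =
      ∑ i, (|κs i| * (N : ℝ) ^ (-(1 - τs i)) + (N : ℝ) ^ (-(1 : ℝ))) := by
    rw [Finset.sum_div]
    refine Finset.sum_congr rfl fun i _ => ?_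
    rw [← r2, ← r3]
    ring
  rw [← r5, ← r6, ← r1, ← r2, ← r3]
  ring

theorem floor_abs_le (x : ℝ) : |((⌊x⌋ : ℤ) : ℝ)| ≤ |x| + 1 := by
  have h1 := Int.floor_le x
  have h2 := Int.lt_floor_add_one x
  rw [abs_le]
  constructor
  · have := neg_abs_le x
    linarith
  · have := le_abs_self x
    linarith

end SlowAvg

open SlowAvg in
/-- **T4.** Averages over slow variables. -/
theorem slow_avg {E : Type*} [NormedAddCommGroup E] [NormedSpace ℝ E] {I : Type} [Fintype I]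
    (κ γ : ℝ) (hκ : 0 < κ) (hγ : 0 < γ) (hγ1 : γ < 1) (κs τs : I → ℝ)
    (hτ : ∀ i, 0 < τs i ∧ τs i < γ) (g : (I → ℤ) → ℕ → E) (hb : ∀ σ b, ‖g σ b‖ ≤ 1)
    (hg : ∀ ε > 0, ∃ L : ℕ, 1 ≤ L ∧ ∀ σ b0, ‖(L : ℝ)⁻¹ • ∑ i ∈ range L, g σ (b0 + i)‖ ≤ ε) :
    Tendsto (fun N : ℕ => ‖(N : ℝ)⁻¹ • ∑ n ∈ range N,
      g (fun i => ⌊κs i * (n : ℝ) ^ τs i⌋) ⌊κ * (n : ℝ) ^ γ⌋₊‖) atTop (𝓝 0) := by
  -- notation
  set p : ℝ := 1 / γ with hp
  have hp1 : 1 ≤ p := by
    rw [hp, le_div_iff₀ hγ]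
    linarith
  have hp0 : 0 < p := by linarith
  set F : ℕ → ℝ := fun k => ((k : ℝ) / κ) ^ p with hF
  set a : ℕ → ℕ := fun k => ⌈F k⌉₊ with ha
  set b : ℕ → ℕ := fun n => ⌊κ * (n : ℝ) ^ γ⌋₊ with hbdef
  set σ : I → ℕ → ℤ := fun i n => ⌊κs i * (n : ℝ) ^ τs i⌋ with hσdef
  have hF0 : ∀ k, 0 ≤ F k := fun k => by positivity
  have haF : ∀ k, F k ≤ a k := fun k => Nat.le_ceil _
  have haF' : ∀ k, (a k : ℝ) ≤ F k + 1 := fun k => (Nat.ceil_lt_add_one (hF0 k)).le
  have hFm : Monotone F := by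
    intro k l hkl
    have : (k : ℝ) ≤ l := by exact_mod_cast hkl
    exact Real.rpow_le_rpow (by positivity) (by gcongr) hp0.le
  have ham : Monotone a := fun k l hkl => Nat.ceil_mono (hFm hkl)
  have ha0 : a 0 = 0 := by
    simp [ha, hF, Real.zero_rpow hp0.ne']
  have hconv : Monotone (fun k => F (k + 1) - F k) := by
    refine monotone_nat_of_le_succ fun k => ?_
    have hcx := (convexOn_rpow hp1).2 (show (k : ℝ) / κ ∈ Set.Ici 0 by
      simp only [Set.mem_Ici]; positivity)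
      (show ((k + 1 + 1 : ℕ) : ℝ) / κ ∈ Set.Ici 0 by simp only [Set.mem_Ici]; positivity)
      (show (0 : ℝ) ≤ 1 / 2 by norm_num) (show (0 : ℝ) ≤ 1 / 2 by norm_num) (by norm_num)
    have hmid : (1 / 2 : ℝ) • ((k : ℝ) / κ) + (1 / 2 : ℝ) • (((k + 1 + 1 : ℕ) : ℝ) / κ) =
        ((k + 1 : ℕ) : ℝ) / κ := by
      simp only [smul_eq_mul]
      push_cast
      ring
    rw [hmid] at hcx
    simp only [smul_eq_mul] at hcx
    change F (k + 1) - F k ≤ F (k + 1 + 1) - F (k + 1)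
    simp only [hF]
    linarith
  have hba : ∀ k n, a k ≤ n ↔ k ≤ b n := by
    intro k n
    simp only [ha, hF, hbdef]
    rw [Nat.ceil_le, Nat.le_floor_iff (by positivity)]
    constructor
    · intro h
      have h1 : ((k : ℝ) / κ) ≤ (n : ℝ) ^ γ := by
        have h2 := Real.rpow_le_rpow (by positivity) h hγ.le
        rwa [← Real.rpow_mul (by positivity), hp, one_div, inv_mul_cancel₀ hγ.ne',
          Real.rpow_one] at h2
      rw [div_le_iff₀ hκ] at h1
      linarith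
    · intro h
      have h1 : ((k : ℝ) / κ) ≤ (n : ℝ) ^ γ := by
        rw [div_le_iff₀ hκ]
        linarith
      have h2 := Real.rpow_le_rpow (by positivity) h1 hp0.le
      have h3 : γ * p = 1 := by rw [hp, one_div, mul_inv_cancel₀ hγ.ne']
      rwa [← Real.rpow_mul (by positivity), h3, Real.rpow_one] at h2
  have hb' : ∀ k n, a k ≤ n → n < a (k + 1) → b n = k := by
    intro k n h1 h2
    have h3 := (hba k n).1 h1
    have h4 : ¬ (k + 1 ≤ b n) := fun h => by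
      have := (hba (k + 1) n).2 h
      omega
    omega
  have hσm : ∀ i, Monotone (σ i) ∨ Antitone (σ i) := by
    intro i
    have hpow : ∀ m n : ℕ, m ≤ n → (m : ℝ) ^ τs i ≤ (n : ℝ) ^ τs i := fun m n hmn =>
      Real.rpow_le_rpow (by positivity) (by exact_mod_cast hmn) (hτ i).1.le
    rcases le_total 0 (κs i) with h | h
    · left
      intro m n hmn
      exact Int.floor_mono (mul_le_mul_of_nonneg_left (hpow m n hmn) h)
    · right
      intro m n hmn
      exact Int.floor_mono (mul_le_mul_of_nonpos_left (hpow m n hmn) h)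
  -- main bound
  rw [Metric.tendsto_atTop]
  intro δ hδ
  obtain ⟨L, hL, hav⟩ := hg (δ / 2) (by positivity)
  set ε : ℝ := δ / 2 with hε
  have hε0 : 0 < ε := by positivity
  have hLpos : (0 : ℝ) < L := by exact_mod_cast hL
  set C : ℝ := p * (L / κ) * (1 + L / κ) ^ (p - 1) with hC
  have hC0 : 0 ≤ C := by positivity
  have herr := err_tendsto γ hγ hγ1 κs τs hτ C ((1 + ε) * L + 1) ((1 + ε) * 2 * κ)
  rw [Metric.tendsto_atTop] at herr
  obtain ⟨N0, hN0⟩ := herr (δ / 2) (by positivity)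
  refine ⟨max N0 1, fun N hN => ?_⟩
  have hNN0 : N0 ≤ N := le_trans (le_max_left _ _) hN
  have hN1 : 1 ≤ N := le_trans (le_max_right _ _) hN
  have hNpos : (0 : ℝ) < N := by exact_mod_cast hN1
  set J : ℕ := b N / L with hJ
  have hJL : J * L ≤ b N := Nat.div_mul_le_self _ _
  have hJL' : b N < J * L + L := by
    have := Nat.lt_div_mul_add (a := b N) (b := L) hL
    simpa [hJ] using this
  have haJ : a (J * L) ≤ N := (hba _ _).2 hJL
  have haJ' : N < a (J * L + L) := by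
    by_contra hcon
    have := (hba (J * L + L) N).1 (not_lt.mp hcon)
    omega
  have hbN : (b N : ℝ) ≤ κ * (N : ℝ) ^ γ := Nat.floor_le (by positivity)
  have hJLr : ((J : ℝ) * L) ≤ κ * (N : ℝ) ^ γ := by
    have : ((J * L : ℕ) : ℝ) ≤ b N := by exact_mod_cast hJL
    push_cast at this
    linarith
  -- bound of the block length
  set M : ℝ := F (J * L + L) - F (J * L) + 1 with hM
  have hMle : M ≤ C * (N : ℝ) ^ (1 - γ) + 1 := by
    have h1 := rpow_sub_le (p := p) (x := ((J * L : ℕ) : ℝ) / κ) (y := ((J * L + L : ℕ) : ℝ) / κ)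
      hp1 (by positivity) (by
        have : (0 : ℝ) < ((J * L + L : ℕ) : ℝ) := by
          have : 0 < J * L + L := by omega
          exact_mod_cast this
        positivity)
    have h2 : ((J * L + L : ℕ) : ℝ) / κ - ((J * L : ℕ) : ℝ) / κ = L / κ := by
      push_cast
      ring
    rw [h2] at h1
    have h3 : ((J * L + L : ℕ) : ℝ) / κ ≤ (N : ℝ) ^ γ * (1 + L / κ) := by
      have h4 : (1 : ℝ) ≤ (N : ℝ) ^ γ := Real.one_le_rpow (by exact_mod_cast hN1) hγ.le
      have h5 : ((J * L + L : ℕ) : ℝ) / κ ≤ (N : ℝ) ^ γ + L / κ := by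
        push_cast
        rw [add_div]
        have : (J : ℝ) * L / κ ≤ (N : ℝ) ^ γ := by
          rw [div_le_iff₀ hκ]
          linarith
        linarith
      have h6 : L / κ ≤ (N : ℝ) ^ γ * (L / κ) := by
        have : 0 ≤ L / κ := by positivity
        nlinarith
      linarith
    have h4 : (((J * L + L : ℕ) : ℝ) / κ) ^ (p - 1) ≤ (N : ℝ) ^ (1 - γ) * (1 + L / κ) ^ (p - 1) := by
      have h5 := Real.rpow_le_rpow (by positivity) h3 (show 0 ≤ p - 1 by linarith)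
      rw [Real.mul_rpow (by positivity) (by positivity), ← Real.rpow_mul (by positivity)] at h5
      have h6 : γ * (p - 1) = 1 - γ := by
        rw [hp]
        field_simp
      rwa [h6] at h5
    have h5 : p * (L / κ) * (((J * L + L : ℕ) : ℝ) / κ) ^ (p - 1) ≤ C * (N : ℝ) ^ (1 - γ) := by
      have h6 : 0 ≤ p * (L / κ) := by positivity
      calc p * (L / κ) * (((J * L + L : ℕ) : ℝ) / κ) ^ (p - 1)
          ≤ p * (L / κ) * ((N : ℝ) ^ (1 - γ) * (1 + L / κ) ^ (p - 1)) :=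
            mul_le_mul_of_nonneg_left h4 h6
        _ = C * (N : ℝ) ^ (1 - γ) := by rw [hC]; ring
    simp only [hM, hF]
    linarith
  have hM0 : 0 ≤ M := by
    have := hFm (show J * L ≤ J * L + L by omega)
    linarith
  -- the variation of the slow variables
  set V : ℝ := ∑ i, |((σ i (a (J * L)) : ℝ) - σ i 0)| with hV
  have hV0 : 0 ≤ V := Finset.sum_nonneg fun i _ => abs_nonneg _
  have hVle : V ≤ ∑ i, (|κs i| * (N : ℝ) ^ τs i + 1) := by
    refine Finset.sum_le_sum fun i _ => ?_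
    have h1 : σ i 0 = 0 := by
      simp [hσdef, Real.zero_rpow (hτ i).1.ne']
    rw [h1]
    simp only [Int.cast_zero, sub_zero]
    refine (floor_abs_le _).trans ?_
    rw [abs_mul, abs_of_nonneg (show 0 ≤ ((a (J * L) : ℕ) : ℝ) ^ τs i by positivity)]
    have h2 : ((a (J * L) : ℕ) : ℝ) ^ τs i ≤ (N : ℝ) ^ τs i :=
      Real.rpow_le_rpow (by positivity) (by exact_mod_cast haJ) (hτ i).1.le
    have := mul_le_mul_of_nonneg_left h2 (abs_nonneg (κs i))
    linarith
  have hsum := sum_all a ha0 F haF haF' ham hconv b hb' σ hσm g hb L hL ε hε0.le hav J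
  -- the remaining part
  have hrest : ‖∑ n ∈ Ico (a (J * L)) N, g (fun i => σ i n) (b n)‖ ≤ M := by
    refine (norm_sum_le _ _).trans ?_
    calc ∑ n ∈ Ico (a (J * L)) N, ‖g (fun i => σ i n) (b n)‖
        ≤ ∑ n ∈ Ico (a (J * L)) N, (1 : ℝ) := Finset.sum_le_sum fun n _ => hb _ _
      _ = (N : ℝ) - a (J * L) := by
          rw [Finset.sum_const, Nat.card_Ico, nsmul_eq_mul, mul_one, Nat.cast_sub haJ]
      _ ≤ M := by
          have h1 : (N : ℝ) ≤ a (J * L + L) := by exact_mod_cast haJ'.le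
          have h2 := haF' (J * L + L)
          have h3 := haF (J * L)
          linarith
  have hsplit : ∑ n ∈ range N, g (fun i => σ i n) (b n) =
      ∑ n ∈ range (a (J * L)), g (fun i => σ i n) (b n) +
      ∑ n ∈ Ico (a (J * L)) N, g (fun i => σ i n) (b n) := by
    rw [Finset.sum_range_add_sum_Ico _ haJ]
  have hD : F (J * L + 1) - F (J * L) - (F 1 - F 0) ≤ M := by
    have h1 := hFm (show J * L + 1 ≤ J * L + L by omega)
    have h2 := hFm (show 0 ≤ 1 by omega)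
    linarith
  have htot : ‖∑ n ∈ range N, g (fun i => σ i n) (b n)‖ ≤
      (C * (N : ℝ) ^ (1 - γ) + 1) * ((∑ i, (|κs i| * (N : ℝ) ^ τs i + 1)) + ((1 + ε) * L + 1)) +
      ((1 + ε) * 2 * κ) * (N : ℝ) ^ γ + ε * N := by
    rw [hsplit]
    refine (norm_add_le _ _).trans ((add_le_add hsum hrest).trans ?_)
    set T := ∑ i, (|κs i| * (N : ℝ) ^ τs i + 1) with hT
    have hT0 : 0 ≤ T := hV0.trans hVle
    have e1 : M * V ≤ (C * (N : ℝ) ^ (1 - γ) + 1) * T :=
      mul_le_mul hMle hVle hV0 (by positivity)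
    have e2 : ε * (a (J * L) : ℝ) ≤ ε * N :=
      mul_le_mul_of_nonneg_left (by exact_mod_cast haJ) hε0.le
    have e3 : (1 + ε) * (L * (F (J * L + 1) - F (J * L) - (F 1 - F 0)) + 2 * L * J) ≤
        (1 + ε) * (L * (C * (N : ℝ) ^ (1 - γ) + 1) + 2 * (κ * (N : ℝ) ^ γ)) := by
      refine mul_le_mul_of_nonneg_left ?_ (by linarith)
      have h1 := mul_le_mul_of_nonneg_left (hD.trans hMle) hLpos.le
      have h2 : 2 * (L : ℝ) * J ≤ 2 * (κ * (N : ℝ) ^ γ) := by linarith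
      linarith
    have e4 : M ≤ C * (N : ℝ) ^ (1 - γ) + 1 := hMle
    have e5 : (C * (N : ℝ) ^ (1 - γ) + 1) * (T + ((1 + ε) * L + 1)) +
        ((1 + ε) * 2 * κ) * (N : ℝ) ^ γ + ε * N = (C * (N : ℝ) ^ (1 - γ) + 1) * T +
        (1 + ε) * (L * (C * (N : ℝ) ^ (1 - γ) + 1) + 2 * (κ * (N : ℝ) ^ γ)) +
        (C * (N : ℝ) ^ (1 - γ) + 1) + ε * N := by ring
    rw [e5]
    have e6 : (F (J * L + L) - F (J * L) + 1) * (∑ i, |((σ i (a (J * L)) : ℝ) - σ i 0)|) =
        M * V := rfl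
    rw [e6]
    linarith
  have hfin := hN0 N hNN0
  rw [Real.dist_eq, sub_zero] at hfin
  rw [Real.dist_eq, sub_zero, abs_of_nonneg (norm_nonneg _), norm_smul, norm_inv,
    Real.norm_of_nonneg hNpos.le]
  have hfin2 := (le_abs_self _).trans_lt hfin
  calc (N : ℝ)⁻¹ * ‖∑ n ∈ range N, g (fun i => σ i n) (b n)‖
      ≤ (N : ℝ)⁻¹ * ((C * (N : ℝ) ^ (1 - γ) + 1) *
        ((∑ i, (|κs i| * (N : ℝ) ^ τs i + 1)) + ((1 + ε) * L + 1)) +
        ((1 + ε) * 2 * κ) * (N : ℝ) ^ γ + ε * N) :=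
        mul_le_mul_of_nonneg_left htot (by positivity)
    _ = ((C * (N : ℝ) ^ (1 - γ) + 1) *
        ((∑ i, (|κs i| * (N : ℝ) ^ τs i + 1)) + ((1 + ε) * L + 1)) +
        ((1 + ε) * 2 * κ) * (N : ℝ) ^ γ) / N + ε := by
        field_simp
    _ < δ / 2 + ε := by linarith
    _ = δ := by rw [hε]; ring

end Pool.Agent.JE
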